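import Mathlib
import Pool.Agent.Lib_helper1.PD.Three

/-!
# The natural density of the integers whose Collatz trajectory contains `a`

For every natural number `a` the natural density of the set of the integers whose Collatz
trajectory contains `a` exists, and it is positive if and only if `3` does not divide `a`. With
`a = 1`: a positive proportion of all positive integers satisfies the conclusion of the Collatz
conjecture.

Outline of the proof (`f n` is the density of the `n`-th Syracuse variable modulo `3 ^ n`):

* `PD.rate`: `f n` and `f n'` are close in mean, `n ≤ n' ≤ 3 n`, with an error smaller than every
  power of `1 / n` (from the fine scale mixing of the offsets of parity words);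
* `PD.spread`: the nodes of the predecessor tree at level `t` with a given number of odd steps are
  distinct integers in a short interval, so the sum of a nonnegative function of the node modulo
  `3 ^ R` (`35 R ≤ t`) over a level is at most `(t + 1) (t + 2)` times its mean;
* `PD.chain`: hence the weighted sum of `f J` over the level `t`, `J = 2 (t / 70)`, decreases by at
  most `K / t ^ 2` when `t` is replaced by `t + t / 70`, uniformly in the root;
* `PD.start`, `PD.exists_two_pow`: it is at least `1 / 2` at one level for some unit class of the
  root modulo a power of `3`, and every `a` not divisible by `3` has some `2 ^ k a` in that class;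
* `PD.lower`: so the number of predecessors up to `x` is at least `c x / (log x) ^ 5` for
  arbitrarily large `x`;
* `ND.reach_pos`: by the transfer principle for invariant sets the natural density exists, and it
  cannot be zero.
-/

set_option autoImplicit false

namespace Pool.Agent.LibHelper3.Superseded.PositiveDensity

open Pool.Agent.LibHelper3

/-- **Theorem.** For every `a` the set of the integers `n ≥ 1` whose Collatz trajectory contains
`a` has a natural density, and this density is positive if and only if `3` does not divide `a`. -/
theorem result (a : ℕ) : ∃ δ : ℝ, 0 ≤ δ ∧ (0 < δ ↔ ¬ 3 ∣ a) ∧
    Filter.Tendsto
      (fun x : ℕ => ({n : ℕ | 1 ≤ n ∧ n ≤ x ∧ ∃ k, collatz^[k] n = a}.ncard : ℝ) / (x : ℝ))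
      Filter.atTop (nhds δ) :=
  PD.density_iff a

end Pool.Agent.LibHelper3.Superseded.PositiveDensity
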